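import Pool.Agent.Q284.GE.Stm

/-! # Project GE (helper284), job LFA: self-dual unitary classes with prescribed fundamental characters -/

set_option autoImplicit false

namespace Pool.Agent.Q182.GE

open Finset Polynomial ComplexConjugate Pool.Agent.Q284.GE

/-- Vieta -/
lemma coeff_prod {n : ℕ} (α : Fin n → ℂ) (k : ℕ) :
    (∏ j, (1 - C (α j) * X)).coeff k = (-1) ^ k * esym α k := by
  classical
  have h1 : ∏ j, (1 - C (α j) * X) = ∑ S ∈ (univ : Finset (Fin n)).powerset,
      C ((-1) ^ S.card * ∏ j ∈ S, α j) * X ^ S.card := by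
    have h2 : ∀ j, (1 - C (α j) * X) = (-(C (α j) * X)) + 1 := fun j => by ring
    simp_rw [h2]
    rw [Finset.prod_add]
    apply Finset.sum_congr rfl
    intro S _
    rw [Finset.prod_const_one, mul_one, Finset.prod_neg, Finset.prod_mul_distrib, Finset.prod_const,
      C_mul, C_pow, C_neg, C_1, map_prod]
    ring
  rw [h1, finsetSum_coeff]
  simp_rw [coeff_C_mul_X_pow]
  rw [← Finset.sum_filter]
  unfold esym
  rw [Finset.mul_sum]
  have h3 : ((univ : Finset (Fin n)).powerset.filter fun S => k = S.card) =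
      powersetCard k (univ : Finset (Fin n)) := by
    ext S
    rw [mem_filter, mem_powersetCard, mem_powerset]
    constructor
    · rintro ⟨h, h'⟩; exact ⟨h, h'.symm⟩
    · rintro ⟨h, h'⟩; exact ⟨h, h'.symm⟩
  rw [h3]
  apply Finset.sum_congr rfl
  intro S hS
  rw [(mem_powersetCard.mp hS).2]

lemma esym_multiset {n : ℕ} (α : Fin n → ℂ) (k : ℕ) :
    esym α k = ((univ : Finset (Fin n)).val.map α).esymm k := by
  rw [Finset.esymm_map_val]
  rfl

/-- the elementary symmetric functions determine the multiset -/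
lemma multiset_of_esym {n : ℕ} {α β : Fin n → ℂ} (h : ∀ k, esym α k = esym β k) :
    (univ : Finset (Fin n)).val.map α = (univ : Finset (Fin n)).val.map β := by
  have h1 : (((univ : Finset (Fin n)).val.map α).map fun t => X - C t).prod =
      (((univ : Finset (Fin n)).val.map β).map fun t => X - C t).prod := by
    rw [Multiset.prod_X_sub_X_eq_sum_esymm, Multiset.prod_X_sub_X_eq_sum_esymm]
    simp only [Multiset.card_map]
    apply Finset.sum_congr rfl
    intro j _
    rw [← esym_multiset, ← esym_multiset, h]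
  have h2 := congrArg Polynomial.roots h1
  rwa [Polynomial.roots_multiset_prod_X_sub_C, Polynomial.roots_multiset_prod_X_sub_C] at h2

lemma esym_pow {n : ℕ} {α β : Fin n → ℂ} (h : ∀ k, esym α k = esym β k) (m k : ℕ) :
    esym (fun j => α j ^ m) k = esym (fun j => β j ^ m) k := by
  rw [esym_multiset, esym_multiset]
  have h1 := congrArg (Multiset.map fun z : ℂ => z ^ m) (multiset_of_esym h)
  rw [Multiset.map_map, Multiset.map_map] at h1
  exact congrArg (fun s => Multiset.esymm s k) h1

lemma esym_conj {n : ℕ} (α : Fin n → ℂ) (k : ℕ) : conj (esym α k) = esym (fun j => conj (α j)) k := by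
  unfold esym
  rw [map_sum]
  simp_rw [map_prod]

lemma esym_norm {n : ℕ} {α : Fin n → ℂ} (h : ∀ j, ‖α j‖ = 1) (k : ℕ) : ‖esym α k‖ ≤ 2 ^ n := by
  unfold esym
  refine (norm_sum_le _ _).trans ?_
  have h1 : ∀ S ∈ powersetCard k (univ : Finset (Fin n)), ‖∏ j ∈ S, α j‖ = 1 := by
    intro S _
    rw [norm_prod]
    exact Finset.prod_eq_one fun j _ => h j
  rw [Finset.sum_congr rfl h1, Finset.sum_const, nsmul_eq_mul, mul_one]
  have h2 : powersetCard k (univ : Finset (Fin n)) ⊆ powerset univ :=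
    fun S hS => mem_powerset.mpr (mem_powersetCard.mp hS).1
  have h3 := Finset.card_le_card h2
  rw [card_powerset, card_univ, Fintype.card_fin] at h3
  exact_mod_cast h3

lemma esym_neg {n : ℕ} (α : Fin n → ℂ) (k : ℕ) : esym (fun j => -α j) k = (-1) ^ k * esym α k := by
  unfold esym
  rw [Finset.mul_sum]
  apply Finset.sum_congr rfl
  intro S hS
  rw [Finset.prod_neg, (mem_powersetCard.mp hS).2]

/-- the squares -/
lemma esym_sq {n : ℕ} (α : Fin n → ℂ) (k : ℕ) :
    (-1) ^ k * esym (fun j => α j ^ 2) k =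
      ∑ p ∈ antidiagonal (2 * k), (∏ j, (1 - C (α j) * X)).coeff p.1 * ((-1) ^ p.2 * (∏ j, (1 - C (α j) * X)).coeff p.2) := by
  have h1 : (∏ j, (1 - C (α j) * X)) * (∏ j, (1 - C (-α j) * X)) =
      expand ℂ 2 (∏ j, (1 - C (α j ^ 2) * X)) := by
    rw [map_prod, ← Finset.prod_mul_distrib]
    apply Finset.prod_congr rfl
    intro j _
    rw [map_sub, map_one, map_mul, expand_C, expand_X, C_neg, C_pow]
    ring
  have h2 := congrArg (fun P => P.coeff (k * 2)) h1
  rw [coeff_expand_mul (by norm_num), coeff_prod, coeff_mul, mul_comm k 2] at h2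
  rw [← h2]
  apply Finset.sum_congr rfl
  intro p _
  congr 1
  rw [coeff_prod, esym_neg, coeff_prod]

theorem t_LFA (hcir : S_CIR) (htgt : S_TGT) : S_LFA := by
  classical
  intro n hn x hx
  have hn0 : (0 : ℝ) < n := by exact_mod_cast (by omega : 0 < n)
  obtain ⟨A, hA⟩ : ∃ A : ℂ[X], A = 1 + ∑ i : Fin ((n - 1) / 2), C (((-1) ^ (i.1 + 1) * x i : ℝ) : ℂ) * X ^ (i.1 + 1) :=
    ⟨_, rfl⟩
  have hAc : ∀ m : ℕ, A.coeff m = (if m = 0 then 1 else 0) +
      ∑ i : Fin ((n - 1) / 2), if m = i.1 + 1 then (((-1) ^ (i.1 + 1) * x i : ℝ) : ℂ) else 0 := by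
    intro m
    rw [hA, coeff_add, coeff_one, finsetSum_coeff]
    simp_rw [coeff_C_mul_X_pow]
  have hA0 : A.coeff 0 = 1 := by
    rw [hAc, if_pos rfl, Finset.sum_eq_zero, add_zero]
    intro i _
    rw [if_neg (by omega)]
  have hAi : ∀ i : Fin ((n - 1) / 2), A.coeff (i.1 + 1) = (((-1) ^ (i.1 + 1) * x i : ℝ) : ℂ) := by
    intro i
    rw [hAc, if_neg (by omega), zero_add, Finset.sum_eq_single i]
    · rw [if_pos rfl]
    · intro j _ hj
      rw [if_neg]
      intro h
      exact hj (Fin.ext (by omega))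
    · intro h; exact absurd (mem_univ i) h
  have hAn : ∀ m : ℕ, n ≤ 2 * m → A.coeff m = 0 := by
    intro m hm
    rw [hAc, if_neg (by omega), zero_add, Finset.sum_eq_zero]
    intro i _
    rw [if_neg]
    have := i.2
    omega
  have hAz : ∀ z : ℂ, ‖z‖ ≤ 1 → A.eval z ≠ 0 := by
    intro z hz h0
    rw [hA, eval_add, eval_one, eval_finsetSum] at h0
    have h1 : ‖∑ i : Fin ((n - 1) / 2), (C (((-1) ^ (i.1 + 1) * x i : ℝ) : ℂ) * X ^ (i.1 + 1)).eval z‖ ≤ 1 / 2 := by
      refine (norm_sum_le _ _).trans ?_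
      have h2 : ∀ i ∈ (univ : Finset (Fin ((n - 1) / 2))),
          ‖(C (((-1) ^ (i.1 + 1) * x i : ℝ) : ℂ) * X ^ (i.1 + 1)).eval z‖ ≤ 1 / (2 * n) := by
        intro i _
        rw [eval_mul, eval_C, eval_pow, eval_X, norm_mul, norm_pow, Complex.norm_real, norm_mul, norm_pow,
          norm_neg, norm_one, one_pow, one_mul, Real.norm_eq_abs]
        calc |x i| * ‖z‖ ^ (i.1 + 1) ≤ |x i| * 1 := by
              gcongr
              exact pow_le_one₀ (norm_nonneg _) hz
          _ ≤ _ := by rw [mul_one]; exact hx i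
      refine (Finset.sum_le_sum h2).trans ?_
      rw [Finset.sum_const, card_univ, Fintype.card_fin, nsmul_eq_mul, mul_one_div,
        div_le_div_iff₀ (by positivity) (by norm_num)]
      have h3 : (((n - 1) / 2 : ℕ) : ℝ) ≤ n := by exact_mod_cast (by omega : (n - 1) / 2 ≤ n)
      linarith
    have h4 : ‖(1 : ℂ)‖ = ‖∑ i : Fin ((n - 1) / 2), (C (((-1) ^ (i.1 + 1) * x i : ℝ) : ℂ) * X ^ (i.1 + 1)).eval z‖ := by
      rw [← norm_neg (∑ i : Fin ((n - 1) / 2), _), ← eq_neg_of_add_eq_zero_left h0]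
    rw [norm_one] at h4
    linarith
  have hε : ‖((-1 : ℂ)) ^ n‖ = 1 := by rw [norm_pow, norm_neg, norm_one, one_pow]
  obtain ⟨b, hb, hb1, hb2⟩ := hcir n ((-1) ^ n) A (by omega) hε hA0 hAn hAz
  obtain ⟨⟨α, hα, hbα⟩, -⟩ := htgt n ((-1) ^ n) b hb
  have hbc : ∀ k, b.coeff k = (-1) ^ k * esym α k := fun k => by rw [hbα, coeff_prod]
  have hsq1 : ∀ k : ℕ, ((-1 : ℂ) ^ k) * (-1) ^ k = 1 := by
    intro k
    rw [← mul_pow, neg_one_mul, neg_neg, one_pow]
  have hec : ∀ k, esym α k = (-1) ^ k * b.coeff k := by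
    intro k
    rw [hbc, ← mul_assoc, hsq1, one_mul]
  have hconjε : conj (((-1 : ℂ)) ^ n) = (-1) ^ n := by
    rw [map_pow, map_neg, map_one]
  -- the coefficients are real
  have hreal : ∀ k, conj (b.coeff k) = b.coeff k := by
    have h1 : ∀ k, 2 * k ≤ n → conj (b.coeff k) = b.coeff k := by
      intro k hk
      rcases hk.eq_or_lt with h | h
      · rw [hb2 k h, map_zero]
      · rw [hb1 k h]
        rcases Nat.eq_zero_or_pos k with h0 | h0
        · rw [h0, hA0, map_one]
        · have h2 := hAi ⟨k - 1, by omega⟩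
          simp only [Nat.sub_add_cancel h0] at h2
          rw [h2, Complex.conj_ofReal]
    intro k
    by_cases hk : 2 * k ≤ n
    · exact h1 k hk
    · by_cases hkn : k ≤ n
      · have h2 := hb.fe (n - k) (by omega)
        have h3 : n - (n - k) = k := by omega
        rw [h3] at h2
        rw [h2, map_mul, hconjε, h1 (n - k) (by omega), h1 (n - k) (by omega)]
      · have : b.coeff k = 0 := coeff_eq_zero_of_natDegree_lt (by rw [hb.deg]; omega)
        rw [this, map_zero]
  have hesr : ∀ k, conj (esym α k) = esym α k := by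
    intro k
    rw [hec, map_mul, hreal, map_pow, map_neg, map_one]
  have hesr2 : ∀ k, esym (fun j => conj (α j)) k = esym α k := fun k => by rw [← esym_conj, hesr]
  refine ⟨α, hα, ?_, ?_, ?_, ?_, ?_⟩
  · have h1 : esym α n = ∏ j, α j := by
      unfold esym
      have : powersetCard n (univ : Finset (Fin n)) = {univ} := by
        have h2 := Finset.powersetCard_self (univ : Finset (Fin n))
        rwa [card_univ, Fintype.card_fin] at h2
      rw [this, Finset.sum_singleton]
    have h2 := hb.fe 0 (Nat.zero_le _)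
    rw [Nat.sub_zero, hb.zero, map_one, mul_one] at h2
    rw [← h1, hec, h2, hsq1]
  · intro w
    have h1 : ∀ β : Fin n → ℂ, ∏ j, (1 - β j * w) = (∏ j, (1 - C (β j) * X)).eval w := by
      intro β
      rw [eval_prod]
      apply Finset.prod_congr rfl
      intro j _
      simp
    rw [h1 (fun j => conj (α j)), h1 α]
    congr 1
    ext k
    rw [coeff_prod, coeff_prod, hesr2]
  · intro i
    have h1 : 2 * (i.1 + 1) < n := by have := i.2; omega
    rw [hec, hb1 _ h1, hAi]
    push_cast
    rw [← mul_assoc, hsq1, one_mul]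
  · intro k m
    refine ⟨?_, esym_norm (fun j => by rw [norm_pow, hα, one_pow]) k⟩
    rw [← Complex.conj_eq_iff_im, esym_conj]
    have h1 := esym_pow (α := fun j => conj (α j)) (β := α) hesr2 m k
    rw [← h1]
    congr 1
    funext j
    rw [map_pow]
  · intro t ht ht1 i
    have hi := i.2
    have ht0 : 0 ≤ t := (abs_nonneg _).trans (ht i)
    -- the bounds of the coefficients
    have hbt1 : ∀ k, 0 < k → 2 * k ≤ n → ‖b.coeff k‖ ≤ t := by
      intro k hk hkn
      rcases hkn.eq_or_lt with h | h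
      · rw [hb2 k h, norm_zero]; exact ht0
      · have h2 := hAi ⟨k - 1, by omega⟩
        simp only [Nat.sub_add_cancel hk] at h2
        rw [hb1 k h, h2, Complex.norm_real, norm_mul, norm_pow, norm_neg, norm_one, one_pow, one_mul,
          Real.norm_eq_abs]
        exact ht _
    have hbt : ∀ k, 0 < k → k < n → ‖b.coeff k‖ ≤ t := by
      intro k hk hkn
      by_cases h : 2 * k ≤ n
      · exact hbt1 k hk h
      · have h2 := hb.fe (n - k) (by omega)
        have h3 : n - (n - k) = k := by omega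
        rw [h3] at h2
        rw [h2, norm_mul, hε, one_mul, Complex.norm_conj]
        exact hbt1 (n - k) (by omega) (by omega)
    have h1 := esym_sq α (i.1 + 1)
    rw [← hbα] at h1
    have h2 : ‖esym (fun j => α j ^ 2) (i.1 + 1)‖ = ‖(-1) ^ (i.1 + 1) * esym (fun j => α j ^ 2) (i.1 + 1)‖ := by
      rw [norm_mul, norm_pow, norm_neg, norm_one, one_pow, one_mul]
    rw [h2, h1]
    refine (norm_sum_le _ _).trans ?_
    have h3 : ∀ p ∈ antidiagonal (2 * (i.1 + 1)), ‖b.coeff p.1 * ((-1) ^ p.2 * b.coeff p.2)‖ ≤ t := by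
      rintro ⟨p1, p2⟩ hp
      rw [HasAntidiagonal.mem_antidiagonal] at hp
      simp only at hp ⊢
      rw [norm_mul, norm_mul, norm_pow, norm_neg, norm_one, one_pow, one_mul]
      rcases Nat.eq_zero_or_pos p1 with h4 | h4
      · rw [h4, hb.zero, norm_one, one_mul]
        exact hbt p2 (by omega) (by omega)
      · have h5 := hbt p1 h4 (by omega)
        rcases Nat.eq_zero_or_pos p2 with h6 | h6
        · rw [h6, hb.zero, norm_one, mul_one]; exact h5
        · have h7 := hbt p2 h6 (by omega)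
          calc ‖b.coeff p1‖ * ‖b.coeff p2‖ ≤ t * 1 := mul_le_mul h5 (h7.trans ht1) (norm_nonneg _) ht0
            _ = t := mul_one t
    refine (Finset.sum_le_sum h3).trans ?_
    rw [Finset.sum_const, Finset.Nat.card_antidiagonal, nsmul_eq_mul]
    apply mul_le_mul_of_nonneg_right _ ht0
    exact_mod_cast (by omega : 2 * (i.1 + 1) + 1 ≤ n)

end Pool.Agent.Q182.GE
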